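import Mathlib
import Pool.Agent.Lib_helper92.MG

/-!
# Soluble and absolutely simple group-theoretic numbers

Every `k ≥ 19` is the number of orders of non-normal subgroups of a finite group that is neither
soluble nor simple.  Hence there are only finitely many soluble group-theoretic numbers and only
finitely many absolutely simple group-theoretic numbers.

The groups are `A₅ × P` with `P` a 2-group of order `2 ^ a`, for which the number is
`3 a + 7 + ie P`; here `ie P` is `0`, `1` or `2`.
-/

set_option autoImplicit false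

namespace Pool.Agent.Results.MP_927db0_al.BothSetsFinite

open Pool.Agent.Lib_helper92.A5

/-- `ie G` is the number of positive integers `n` such that `G` has a non-normal subgroup of
order `n`. -/
noncomputable def ie (G : Type) [Group G] : ℕ :=
  Set.ncard {n : ℕ | 0 < n ∧ ∃ H : Subgroup G, Nat.card H = n ∧ ¬ H.Normal}

/-- A positive integer `k` is a soluble group-theoretic number if every finite group `G` with
`ie G = k` is soluble. -/
def IsSolubleNumber (k : ℕ) : Prop :=
  0 < k ∧ ∀ (G : Type) [Group G] [Finite G], ie G = k → Group.IsSolvable G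

/-- A positive integer `k` is an absolutely simple group-theoretic number if some finite simple
group `G` has `ie G = k` and no finite group that is both non-soluble and non-simple has
`ie G = k`. -/
def IsAbsolutelySimpleNumber (k : ℕ) : Prop :=
  0 < k ∧ (∃ (G : Type) (_ : Group G) (_ : Finite G), IsSimpleGroup G ∧ ie G = k) ∧
    ¬ ∃ (G : Type) (_ : Group G) (_ : Finite G),
      ¬ Group.IsSolvable G ∧ ¬ IsSimpleGroup G ∧ ie G = k

lemma ie_eq (G : Type) [Group G] [Finite G] : ie G = (NN G).ncard := by
  unfold ie
  congr 1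
  ext n
  constructor
  · rintro ⟨-, h⟩
    exact h
  · rintro ⟨H, rfl, hH⟩
    exact ⟨Nat.card_pos, H, rfl, hH⟩

lemma not_solvable_A : ¬ Group.IsSolvable A := by
  intro h
  have hcomm := IsSimpleGroup.comm_iff_isSolvable.mpr h
  obtain ⟨H, hH⟩ := exists_card 2 (by simp [ords])
  have hn : H.Normal := ⟨fun n hn g => by rw [hcomm g n, mul_inv_cancel_right]; exact hn⟩
  rcases hn.eq_bot_or_eq_top with h | h
  · rw [h, Subgroup.card_bot] at hH
    omega
  · rw [h, Subgroup.card_top, card_A] at hH
    omega

lemma not_solvable (P : Type) [Group P] : ¬ Group.IsSolvable (A × P) := by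
  intro h
  exact not_solvable_A (Group.isSolvable_of_surjective (f := MonoidHom.fst A P) Prod.fst_surjective)

lemma not_simple (P : Type) [Group P] (hP : 1 < Nat.card P) : ¬ IsSimpleGroup (A × P) := by
  intro h
  have hn : ((⊤ : Subgroup A).prod (⊥ : Subgroup P)).Normal := Subgroup.prod_normal _ _
  rcases hn.eq_bot_or_eq_top with h | h
  · have h1 := congrArg (fun U : Subgroup (A × P) => Nat.card U) h
    rw [Nat.card_congr (Subgroup.prodEquiv _ _).toEquiv, Nat.card_prod, Subgroup.card_top,
      Subgroup.card_bot, Subgroup.card_bot, card_A] at h1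
    omega
  · have h1 : (⊥ : Subgroup P) = ⊤ := by
      ext x
      constructor
      · intro _; trivial
      · intro _
        have h2 : ((1 : A), x) ∈ (⊤ : Subgroup A).prod (⊥ : Subgroup P) := by
          rw [h]; trivial
        exact h2.2
    have h3 := congrArg (fun U : Subgroup P => Nat.card U) h1
    rw [Subgroup.card_bot, Subgroup.card_top] at h3
    omega

/-- every `k ≥ 19` is attained by a group that is neither soluble nor simple -/
lemma attained (k : ℕ) (hk : 19 ≤ k) : ∃ (G : Type) (_ : Group G) (_ : Finite G),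
    ¬ Group.IsSolvable G ∧ ¬ IsSimpleGroup G ∧ ie G = k := by
  have h3 : k % 3 = 0 ∨ k % 3 = 1 ∨ k % 3 = 2 := by omega
  rcases h3 with h | h | h
  · obtain ⟨m, hm⟩ : ∃ m, k = 3 * m + 21 := ⟨(k - 21) / 3, by omega⟩
    refine ⟨A × P2 m, inferInstance, inferInstance, not_solvable _, not_simple _ ?_, ?_⟩
    · rw [card_P2]; exact Nat.one_lt_two_pow (by omega)
    · rw [ie_eq, ncard_NN_prod (card_P2 m), ncard_P2]; omega
  · obtain ⟨m, hm⟩ : ∃ m, k = 3 * (m + 1) + 7 := ⟨(k - 10) / 3, by omega⟩
    refine ⟨A × P0 m, inferInstance, inferInstance, not_solvable _, not_simple _ ?_, ?_⟩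
    · rw [card_P0]; exact Nat.one_lt_two_pow (by omega)
    · rw [ie_eq, ncard_NN_prod (card_P0 m), ncard_P0]; omega
  · obtain ⟨m, hm⟩ : ∃ m, k = 3 * m + 17 := ⟨(k - 17) / 3, by omega⟩
    refine ⟨A × P1 m, inferInstance, inferInstance, not_solvable _, not_simple _ ?_, ?_⟩
    · rw [card_P1]; exact Nat.one_lt_two_pow (by omega)
    · rw [ie_eq, ncard_NN_prod (card_P1 m), ncard_P1]; omega

lemma soluble_le {k : ℕ} (h : IsSolubleNumber k) : k ≤ 18 := by
  by_contra hcon
  obtain ⟨G, i1, i2, h1, -, h3⟩ := attained k (by omega)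
  exact h1 (h.2 G h3)

lemma absolutelySimple_le {k : ℕ} (h : IsAbsolutelySimpleNumber k) : k ≤ 18 := by
  by_contra hcon
  exact h.2.2 (attained k (by omega))

/-- The set of soluble group-theoretic numbers and the set of absolutely simple group-theoretic
numbers are both finite: all members of both sets are at most `18`. -/
theorem result :
    ({k | IsSolubleNumber k}.Finite ∧ ∀ k, IsSolubleNumber k → k ≤ 18) ∧
      ({k | IsAbsolutelySimpleNumber k}.Finite ∧ ∀ k, IsAbsolutelySimpleNumber k → k ≤ 18) := by
  refine ⟨⟨?_, fun k h => soluble_le h⟩, ⟨?_, fun k h => absolutelySimple_le h⟩⟩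
  · exact (Set.finite_Iic 18).subset (fun k h => soluble_le h)
  · exact (Set.finite_Iic 18).subset (fun k h => absolutelySimple_le h)

end Pool.Agent.Results.MP_927db0_al.BothSetsFinite
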